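import Pool.Agent.Helper39.HD.Final

/-!
# Hamilton decompositions of one-ended abelian Cayley graphs with torsion generators
-/

namespace Pool.Agent.Helper39.Variants.FewTorsionOrArboricity

open Pool.Agent.Helper39.HD

/-- Let `Γ ≅ ℤⁿ × T` with `n ≥ 2` and `T` finite, and let `S` be a finite generating set with
`S ∩ -S = ∅` (so `0 ∉ S`). Let the set `Sfin S` of the elements of finite order of `S` be
partitioned into `m` sets `P i`, each of which has at most two elements or satisfies
that the Cayley graph of the (finite) group generated by `P i` with respect to `P i` decomposes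
into `|P i| + 1` linear forests. Let `m ≤ 1`, or let there be an element `b ∈ S` of
infinite order such that `m + 2 k ≤ |Sinf S| + 1`, where `Sinf S` is the set of elements of
infinite order of `S` and `k` is the number of elements of `Sinf S` parallel to `b`. Then the
Cayley graph `G(Γ,S)` has a Hamilton decomposition into spanning double rays. -/
theorem result (Γ : Type) [AddCommGroup Γ] (n : ℕ) (hn : 2 ≤ n) (T : Type) [AddCommGroup T]
    [Finite T] (e : Γ ≃+ (Fin n → ℤ) × T) (S : Set Γ) (hfin : S.Finite)
    (hS : ∀ s ∈ S, -s ∉ S) (hgen : AddSubgroup.closure S = ⊤)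
    (m : ℕ) (P : Fin m → Set Γ) (hP : ⋃ i, P i = Sfin S)
    (hdisj : ∀ i j, i ≠ j → Disjoint (P i) (P j))
    (hLA : ∀ i, (P i).ncard ≤ 2 ∨ LinearForestDecomposable
      (SimpleGraph.circulantGraph ((fun x : AddSubgroup.closure (P i) => (x : Γ)) ⁻¹' P i))
      ((P i).ncard + 1))
    (hm : m ≤ 1 ∨ ∃ b ∈ Sinf S, m + 2 * {s ∈ Sinf S | Par s b}.ncard ≤ (Sinf S).ncard + 1) :
    HasHamiltonDecomposition (SimpleGraph.circulantGraph S) :=
  main_theorem' hn e S hfin hS hgen m hm P hP hdisj hLA

end Pool.Agent.Helper39.Variants.FewTorsionOrArboricity
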