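import Mathlib
import Pool.Agent.Helper39.TC.Sparse

/-!
# Classes without all cographic matroids: members have sparse matrices and, if highly connected,
are dense
-/

namespace Pool.Agent.Helper39.Variants.SparseMatrix

open Pool.Agent.Helper39.TC

/-- For every finite field `F` and every `m` there is `C` such that for every minor-closed class
`𝓜` of `F`-represented matroids, no member of which is the dual of `M(K_m)`, every member `M` of
rank `r` with `n` elements is `M(A)` for an `r × n` matrix `A` whose row `i` (counted from `0`) has
at most `C * n / (r - i)` nonzero entries, and if `M` is `k`-connected and `2 * k ≤ n`, then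
`k * r ≤ C * n`. -/
theorem result (F : Type) [Field F] [Finite F] (m : ℕ) :
    ∃ C : ℕ, ∀ 𝓜 : MClass F, MinorClosed 𝓜 →
      (∀ (n : ℕ) (U : Submodule F (Fin n → F)), 𝓜 n U → ¬ IsClique m (dual U)) →
      ∀ (n : ℕ) (U : Submodule F (Fin n → F)), 𝓜 n U →
        (∃ A : Matrix (Fin (Module.finrank F U)) (Fin n) F, rowSpace A = U ∧
          ∀ i, (Module.finrank F U - i) * {j | A i j ≠ 0}.ncard ≤ C * n) ∧
        ∀ k : ℕ, 2 * k ≤ n → TutteConn k U → k * Module.finrank F U ≤ C * n :=
  sparse F m

end Pool.Agent.Helper39.Variants.SparseMatrix
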